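import Mathlib

/-!
# Adding the elements of largest value of a valuation
-/

set_option autoImplicit false

namespace Pool.Agent.Helper37.RV

open Finset
open scoped Pointwise

/-- the elements of largest value: products that are different modulo the differences -/
theorem ext_prod {K : Type*} [Field K] [DecidableEq K] {Γ : Type*}
    [LinearOrderedCommGroupWithZero Γ]
    (v : Valuation K Γ) (A : Finset K) (l : Γ) (hl : 1 < l) (hA : ∀ a ∈ A, v a ≤ l)
    (X : Finset K)
    (hX : X ⊆ A.filter (fun a => v a = l) * A.filter (fun a => v a = l))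
    (hcard : (A.filter (fun a => v a = l)).card ≤ X.card)
    (hsep : ∀ x ∈ X, ∀ x' ∈ X, x ≠ x' → ∀ a ∈ A, ∀ a' ∈ A, x - x' ≠ a - a')
    (h : (A.filter (fun a => v a < l) + A.filter (fun a => v a < l)).card
      ≤ (A.filter (fun a => v a < l) * A.filter (fun a => v a < l)
        + A.filter (fun a => v a < l)).card) :
    (A + A).card ≤ (A * A + A).card := by
  classical
  set B := A.filter (fun a => v a < l) with hB
  set T := A.filter (fun a => v a = l) with hTd
  have hl0 : 0 < l := lt_trans zero_lt_one hl
  -- the sums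
  have h1 : A + A ⊆ (B + B) ∪ (T + A) := by
    intro s hs
    obtain ⟨x, hx, y, hy, rfl⟩ := mem_add.mp hs
    rw [mem_union]
    by_cases hxl : v x = l
    · exact Or.inr (add_mem_add (mem_filter.mpr ⟨hx, hxl⟩) hy)
    by_cases hyl : v y = l
    · right
      rw [add_comm x y]
      exact add_mem_add (mem_filter.mpr ⟨hy, hyl⟩) hx
    · exact Or.inl (add_mem_add (mem_filter.mpr ⟨hx, lt_of_le_of_ne (hA x hx) hxl⟩)
        (mem_filter.mpr ⟨hy, lt_of_le_of_ne (hA y hy) hyl⟩))
  have h2 : (A + A).card ≤ (B + B).card + T.card * A.card :=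
    (card_le_card h1).trans ((card_union_le _ _).trans
      (Nat.add_le_add_left (card_add_le) _))
  -- the products
  have hinj : Set.InjOn (fun x : K × K => x.1 + x.2) ((X ×ˢ A : Finset (K × K)) : Set (K × K)) := by
    rintro ⟨x, a⟩ h3 ⟨x', a'⟩ h4 h5
    simp only [coe_product, Set.mem_prod, mem_coe] at h3 h4
    simp only at h5
    have h6 : x = x' := by
      by_contra hne
      refine hsep x h3.1 x' h4.1 hne a' h4.2 a h3.2 ?_
      linear_combination h5
    subst h6
    have h7 : a = a' := by linear_combination h5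
    rw [h7]
  have h3 : ((X ×ˢ A).image (fun x : K × K => x.1 + x.2)).card = X.card * A.card := by
    rw [card_image_of_injOn hinj, card_product]
  have hdis : Disjoint (B * B + B) ((X ×ˢ A).image (fun x : K × K => x.1 + x.2)) := by
    rw [disjoint_left]
    intro s hs hs'
    obtain ⟨xy, hxy, z, hz, rfl⟩ := mem_add.mp hs
    obtain ⟨x, hx, y, hy, rfl⟩ := mem_mul.mp hxy
    obtain ⟨⟨w, a⟩, hwa, hs2⟩ := mem_image.mp hs'
    rw [mem_product] at hwa
    simp only at hs2 hwa
    obtain ⟨t, ht, t', ht', hw⟩ := mem_mul.mp (hX hwa.1)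
    have e1 : v w = l * l := by rw [← hw, map_mul, (mem_filter.mp ht).2, (mem_filter.mp ht').2]
    have e2 : v a < l * l :=
      lt_of_le_of_lt (hA a hwa.2) (by simpa using mul_lt_mul_of_pos_right hl hl0)
    have e3 : v (w + a) = l * l := by
      rw [Valuation.map_add_eq_of_lt_left v (by rw [e1]; exact e2), e1]
    have e4 : v (x * y) < l * l := by
      rw [map_mul]
      exact mul_lt_mul'' (mem_filter.mp hx).2 (mem_filter.mp hy).2 zero_le zero_le
    have e5 : v z < l * l := lt_trans (mem_filter.mp hz).2 (by simpa using mul_lt_mul_of_pos_right hl hl0)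
    have e6 : v (x * y + z) < l * l := v.map_add_lt e4 e5
    rw [← hs2, e3] at e6
    exact lt_irrefl _ e6
  have h4 : (B * B + B) ∪ (X ×ˢ A).image (fun x : K × K => x.1 + x.2) ⊆ A * A + A := by
    apply union_subset
    · exact add_subset_add (mul_subset_mul (filter_subset _ _) (filter_subset _ _))
        (filter_subset _ _)
    · intro s hs
      obtain ⟨⟨w, a⟩, hwa, rfl⟩ := mem_image.mp hs
      rw [mem_product] at hwa
      exact add_mem_add (mul_subset_mul (filter_subset _ _) (filter_subset _ _) (hX hwa.1)) hwa.2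
  have h5 := card_le_card h4
  rw [card_union_of_disjoint hdis, h3] at h5
  have h6 := Nat.mul_le_mul_right A.card hcard
  omega

/-- products that are different modulo the elements of value at most `l` -/
theorem ext_classes {K : Type*} [Field K] [DecidableEq K] {Γ : Type*}
    [LinearOrderedCommGroupWithZero Γ]
    (v : Valuation K Γ) (A : Finset K) (l : Γ) (hl : 1 < l) (hA : ∀ a ∈ A, v a ≤ l)
    (X : Finset K)
    (hX : X ⊆ A.filter (fun a => v a = l) * A.filter (fun a => v a = l))
    (hcard : (A.filter (fun a => v a = l)).card ≤ X.card)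
    (hsep : ∀ x ∈ X, ∀ x' ∈ X, x ≠ x' → l < v (x - x'))
    (h : (A.filter (fun a => v a < l) + A.filter (fun a => v a < l)).card
      ≤ (A.filter (fun a => v a < l) * A.filter (fun a => v a < l)
        + A.filter (fun a => v a < l)).card) :
    (A + A).card ≤ (A * A + A).card := by
  refine ext_prod v A l hl hA X hX hcard ?_ h
  intro x hx x' hx' hne a ha a' ha' he
  have h3 := hsep x hx x' hx' hne
  rw [he] at h3
  exact absurd h3 (not_lt.mpr (v.map_sub_le (hA a ha) (hA a' ha')))

/-- the elements of largest value -/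
theorem ext {K : Type*} [Field K] [DecidableEq K] {Γ : Type*} [LinearOrderedCommGroupWithZero Γ]
    (v : Valuation K Γ) (A : Finset K) (l : Γ) (hl : 1 < l) (c : K) (hc : c ∈ A) (hcl : v c = l)
    (hA : ∀ a ∈ A, v a ≤ l)
    (hT : ∀ t ∈ A, ∀ t' ∈ A, v t = l → v t' = l → t ≠ t' →
      ∀ a ∈ A, ∀ a' ∈ A, c * (t - t') ≠ a - a')
    (h : (A.filter (fun a => v a < l) + A.filter (fun a => v a < l)).card
      ≤ (A.filter (fun a => v a < l) * A.filter (fun a => v a < l)
        + A.filter (fun a => v a < l)).card) :
    (A + A).card ≤ (A * A + A).card := by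
  classical
  have hl0 : 0 < l := lt_trans zero_lt_one hl
  have hc0 : c ≠ 0 := by
    rintro rfl
    rw [map_zero] at hcl
    exact absurd hcl hl0.ne
  refine ext_prod v A l hl hA ((A.filter (fun a => v a = l)).image (fun t => c * t)) ?_ ?_ ?_ h
  · intro x hx
    obtain ⟨t, ht, rfl⟩ := mem_image.mp hx
    exact mul_mem_mul (mem_filter.mpr ⟨hc, hcl⟩) ht
  · rw [card_image_of_injective _ (mul_right_injective₀ hc0)]
  · intro x hx x' hx' hne a ha a' ha' he
    obtain ⟨t, ht, rfl⟩ := mem_image.mp hx
    obtain ⟨t', ht', rfl⟩ := mem_image.mp hx'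
    refine hT t (mem_filter.mp ht).1 t' (mem_filter.mp ht').1 (mem_filter.mp ht).2
      (mem_filter.mp ht').2 (fun h => hne (by rw [h])) a ha a' ha' ?_
    rw [mul_sub]
    exact he

/-- the case of different residue classes -/
theorem ext_of_sub {K : Type*} [Field K] [DecidableEq K] {Γ : Type*}
    [LinearOrderedCommGroupWithZero Γ]
    (v : Valuation K Γ) (A : Finset K) (l : Γ) (hl : 1 < l) (c : K) (hc : c ∈ A) (hcl : v c = l)
    (hA : ∀ a ∈ A, v a ≤ l)
    (hT : ∀ t ∈ A, ∀ t' ∈ A, v t = l → v t' = l → t ≠ t' → 1 < v (t - t'))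
    (h : (A.filter (fun a => v a < l) + A.filter (fun a => v a < l)).card
      ≤ (A.filter (fun a => v a < l) * A.filter (fun a => v a < l)
        + A.filter (fun a => v a < l)).card) :
    (A + A).card ≤ (A * A + A).card := by
  have hl0 : 0 < l := lt_trans zero_lt_one hl
  refine ext v A l hl c hc hcl hA ?_ h
  intro t ht t' ht' h1 h2 hne a ha a' ha' he
  have h3 := hT t ht t' ht' h1 h2 hne
  have h4 : v (c * (t - t')) = l * v (t - t') := by rw [map_mul, hcl]
  have h5 : l < l * v (t - t') := by simpa using mul_lt_mul_of_pos_left h3 hl0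
  have h6 : v (a - a') ≤ l := v.map_sub_le (hA a ha) (hA a' ha')
  rw [← he, h4] at h6
  exact absurd h5 (not_lt.mpr h6)

/-- adding one element -/
theorem add_one (A : Finset ℝ) (x : ℝ) (hnot : ∀ b ∈ insert x A, x * x + b ∉ A * A + A)
    (h : (A + A).card ≤ (A * A + A).card) :
    (insert x A + insert x A).card ≤ (insert x A * insert x A + insert x A).card := by
  classical
  have h1 : insert x A + insert x A ⊆ (A + A) ∪ ({x} + insert x A) := by
    intro s hs
    obtain ⟨y, hy, z, hz, rfl⟩ := mem_add.mp hs
    rw [mem_union]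
    rcases mem_insert.mp hy with rfl | hy'
    · exact Or.inr (add_mem_add (mem_singleton_self _) hz)
    rcases mem_insert.mp hz with rfl | hz'
    · right
      rw [add_comm y z]
      exact add_mem_add (mem_singleton_self _) hy
    · exact Or.inl (add_mem_add hy' hz')
  have h2 : (insert x A + insert x A).card ≤ (A + A).card + (insert x A).card := by
    refine (card_le_card h1).trans ((card_union_le _ _).trans ?_)
    have := card_add_le (s := ({x} : Finset ℝ)) (t := insert x A)
    rw [card_singleton, one_mul] at this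
    omega
  have h3 : ((insert x A).image (fun b => x * x + b)).card = (insert x A).card :=
    card_image_of_injective _ (fun a b hab => by simpa using hab)
  have h4 : Disjoint (A * A + A) ((insert x A).image (fun b => x * x + b)) := by
    rw [disjoint_left]
    intro s hs hs'
    obtain ⟨b, hb, rfl⟩ := mem_image.mp hs'
    exact hnot b hb hs
  have h5 : (A * A + A) ∪ (insert x A).image (fun b => x * x + b)
      ⊆ insert x A * insert x A + insert x A := by
    apply union_subset
    · exact add_subset_add (mul_subset_mul (subset_insert _ _) (subset_insert _ _))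
        (subset_insert _ _)
    · intro s hs
      obtain ⟨b, hb, rfl⟩ := mem_image.mp hs
      exact add_mem_add (mul_mem_mul (mem_insert_self _ _) (mem_insert_self _ _)) hb
  have h6 := card_le_card h5
  rw [card_union_of_disjoint h4, h3] at h6
  omega

/-- adding an element that is not integral over the ring generated by the others -/
theorem integral (A : Finset ℝ) (x : ℝ)
    (hx : ¬ IsIntegral (Algebra.adjoin ℤ (A : Set ℝ)) x)
    (h : (A + A).card ≤ (A * A + A).card) :
    (insert x A + insert x A).card ≤ (insert x A * insert x A + insert x A).card := by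
  classical
  set R := Algebra.adjoin ℤ (A : Set ℝ) with hR
  have hmem : ∀ a ∈ A, a ∈ R := fun a ha => Algebra.subset_adjoin (by simpa using ha)
  refine add_one A x ?_ h
  intro b hb hs
  have hmemR : x * x + b ∈ R := by
    obtain ⟨yz, hyz, w, hw, hsum⟩ := mem_add.mp hs
    obtain ⟨y, hy, z, hz, rfl⟩ := mem_mul.mp hyz
    rw [← hsum]
    exact R.add_mem (R.mul_mem (hmem y hy) (hmem z hz)) (hmem w hw)
  apply hx
  rcases mem_insert.mp hb with rfl | hb
  · refine ⟨Polynomial.X ^ 2 + Polynomial.X - Polynomial.C ⟨b * b + b, hmemR⟩, ?_, ?_⟩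
    · monicity!
    · simp only [Polynomial.eval₂_sub, Polynomial.eval₂_add, Polynomial.eval₂_pow,
        Polynomial.eval₂_X, Polynomial.eval₂_C]
      change b ^ 2 + b - (b * b + b) = 0
      ring
  · have h1 : x * x ∈ R := by
      have := R.sub_mem hmemR (hmem b hb)
      simpa using this
    refine IsIntegral.of_pow (n := 2) (by norm_num) ?_
    have h2 : IsIntegral R (algebraMap R ℝ ⟨x * x, h1⟩) := isIntegral_algebraMap
    rw [pow_two]
    exact h2

/-- adding an element of large absolute value -/
theorem large (A : Finset ℝ) (x : ℝ) (hx : ∀ a ∈ A, |a| + 1 < |x|)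
    (h : (A + A).card ≤ (A * A + A).card) :
    (insert x A + insert x A).card ≤ (insert x A * insert x A + insert x A).card := by
  classical
  refine add_one A x ?_ h
  intro b hb hs
  obtain ⟨yz, hyz, w, hw, hsum⟩ := mem_add.mp hs
  obtain ⟨y, hy, z, hz, rfl⟩ := mem_mul.mp hyz
  -- the largest absolute value
  obtain ⟨m, hm, hmax⟩ := exists_max_image A (fun a => |a|) ⟨y, hy⟩
  have h1 := hx m hm
  have h2 : |y| ≤ |m| := hmax y hy
  have h3 : |z| ≤ |m| := hmax z hz
  have h4 : |w| ≤ |m| := hmax w hw
  have hm0 : 0 ≤ |m| := abs_nonneg m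
  have h5 : |y * z + w| ≤ |m| * |m| + |m| := by
    refine (abs_add_le _ _).trans (add_le_add ?_ h4)
    rw [abs_mul]
    exact mul_le_mul h2 h3 (abs_nonneg _) hm0
  have h6 : |m| * |m| + |m| < |x| * |x| - |x| := by nlinarith
  have h7 : |x| * |x| - |x| ≤ |x * x + b| := by
    have h8 : |b| ≤ |x| := by
      rcases mem_insert.mp hb with rfl | hb
      · exact le_rfl
      · linarith [hx b hb]
    have h9 : |x * x| = |x| * |x| := abs_mul x x
    have h10 : |x * x| - |b| ≤ |x * x + b| := by
      have := abs_sub_abs_le_abs_sub (x * x) (-b)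
      rwa [abs_neg, sub_neg_eq_add] at this
    linarith
  rw [hsum] at h5
  linarith

/-- a minimal example: every element is integral over the ring of the others, and its absolute
value is at most one more than some other absolute value -/
theorem minimal (A : Finset ℝ) (hA : (A * A + A).card < (A + A).card)
    (hmin : ∀ B : Finset ℝ, B ⊂ A → (B + B).card ≤ (B * B + B).card)
    (x : ℝ) (hx : x ∈ A) :
    IsIntegral (Algebra.adjoin ℤ ((A.erase x : Finset ℝ) : Set ℝ)) x ∧
      ∃ a ∈ A.erase x, |x| ≤ |a| + 1 := by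
  constructor
  · by_contra hne
    have h1 := integral (A.erase x) x hne (hmin _ (erase_ssubset hx))
    rw [insert_erase hx] at h1
    exact absurd h1 (not_le.mpr hA)
  · by_contra hne
    push Not at hne
    have h1 := large (A.erase x) x hne (hmin _ (erase_ssubset hx))
    rw [insert_erase hx] at h1
    exact absurd h1 (not_le.mpr hA)

/-- a minimal example and the valuations of the field: the products of elements of largest
value are in fewer classes than there are such elements -/
theorem minimal_classes {Γ : Type*} [LinearOrderedCommGroupWithZero Γ] (v : Valuation ℝ Γ)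
    (A : Finset ℝ) (hA : (A * A + A).card < (A + A).card)
    (hmin : ∀ B : Finset ℝ, B ⊂ A → (B + B).card ≤ (B * B + B).card)
    (c : ℝ) (hc : c ∈ A) (h1 : 1 < v c) (hmax : ∀ a ∈ A, v a ≤ v c)
    (X : Finset ℝ) (hX : X ⊆ A.filter (fun a => v a = v c) * A.filter (fun a => v a = v c))
    (hsep : ∀ x ∈ X, ∀ x' ∈ X, x ≠ x' → v c < v (x - x')) :
    X.card < (A.filter (fun a => v a = v c)).card := by
  by_contra hne
  have h2 := ext_classes v A (v c) h1 hmax X hX (not_lt.mp hne) hsep
    (hmin _ (filter_ssubset.mpr ⟨c, hc, lt_irrefl _⟩))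
  exact absurd h2 (not_le.mpr hA)

/-- two elements of largest value are congruent -/
theorem minimal_val {Γ : Type*} [LinearOrderedCommGroupWithZero Γ] (v : Valuation ℝ Γ)
    (A : Finset ℝ) (hA : (A * A + A).card < (A + A).card)
    (hmin : ∀ B : Finset ℝ, B ⊂ A → (B + B).card ≤ (B * B + B).card)
    (c : ℝ) (hc : c ∈ A) (h1 : 1 < v c) (hmax : ∀ a ∈ A, v a ≤ v c) :
    ∃ t ∈ A, ∃ t' ∈ A, t ≠ t' ∧ v t = v c ∧ v t' = v c ∧ v (t - t') ≤ 1 := by
  by_contra hne
  push Not at hne
  have h2 := ext_of_sub v A (v c) h1 c hc rfl hmax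
    (fun t ht t' ht' e1 e2 hn => hne t ht t' ht' hn e1 e2)
    (hmin _ (filter_ssubset.mpr ⟨c, hc, lt_irrefl _⟩))
  exact absurd h2 (not_le.mpr hA)

end Pool.Agent.Helper37.RV
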