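import Pool.Agent.Helper37.RV.Ext
import Pool.Agent.Helper37.RS.Full9

/-!
# Rational sets in which elements of one level are different modulo the integral elements
-/

set_option autoImplicit false

namespace Pool.Agent.Helper37.RV

open Finset
open scoped Pointwise

theorem den_dvd_of_mul (x : ℚ) (q : ℕ) (hq : 0 < q) (z : ℤ) (h : (q : ℚ) * x = z) : x.den ∣ q := by
  have hq' : (q : ℚ) ≠ 0 := by exact_mod_cast hq.ne'
  have h1 : x = ((z : ℤ) : ℚ) / ((q : ℤ) : ℚ) := by
    field_simp
    push_cast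
    linear_combination h
  have h2 : ((x.den : ℕ) : ℤ) ∣ (q : ℤ) := by
    rw [h1, ← Rat.divInt_eq_div]
    exact Rat.den_dvd z q
  exact_mod_cast h2

theorem sq_dvd_den (p : ℕ) (hp : p.Prime) (x : ℚ) : p ^ 2 ∣ x.den ↔ p ∣ ((p : ℚ) * x).den := by
  have hp0 : 0 < p := hp.pos
  have hx : (x.den : ℚ) * x = x.num := Rat.den_mul_eq_num x
  set y : ℚ := (p : ℚ) * x with hy
  have hyn : (y.den : ℚ) * y = y.num := Rat.den_mul_eq_num y
  constructor
  · rintro ⟨m, hm⟩
    have h1 : x.den ∣ p * y.den := by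
      refine den_dvd_of_mul x (p * y.den) (Nat.mul_pos hp0 y.den_pos) y.num ?_
      rw [← hyn, hy]
      push_cast
      ring
    rw [hm, pow_two, mul_assoc] at h1
    exact (Dvd.intro m rfl).trans (Nat.dvd_of_mul_dvd_mul_left hp0 h1)
  · intro h
    have h1 : y.den ∣ x.den := by
      refine den_dvd_of_mul y x.den x.den_pos ((p : ℤ) * x.num) ?_
      rw [hy]
      push_cast
      rw [← hx]
      ring
    obtain ⟨m, hm⟩ := h.trans h1
    have hm0 : 0 < m := by
      rcases Nat.eq_zero_or_pos m with h0 | h0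
      · rw [h0] at hm
        exact absurd hm x.den_pos.ne'
      · exact h0
    have h2 : y.den ∣ m := by
      refine den_dvd_of_mul y m hm0 x.num ?_
      rw [hy, ← hx, hm]
      push_cast
      ring
    obtain ⟨n, hn⟩ := h.trans h2
    exact ⟨n, by rw [hm, hn]; ring⟩

theorem rat (A : Finset ℚ)
    (h : ∀ p : ℕ, p.Prime → ∀ a ∈ A, ∀ b ∈ A, a ≠ b → p ^ 2 ∣ a.den → p ^ 2 ∣ b.den →
      p ∣ (a - b).den) : (A + A).card ≤ (A * A + A).card := by
  induction hn : A.card using Nat.strong_induction_on generalizing A with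
  | _ n ih =>
    by_cases hsq : ∀ a ∈ A, Squarefree a.den
    · obtain ⟨q, hA, hc⟩ := Helper37.RS.sqf A hsq
      exact Helper37.RS.unitary A q hA hc
    push Not at hsq
    obtain ⟨a₀, ha₀, hnsq⟩ := hsq
    rw [Nat.squarefree_iff_prime_squarefree] at hnsq
    push Not at hnsq
    obtain ⟨p, hp, hpp⟩ := hnsq
    have : Fact p.Prime := ⟨hp⟩
    obtain ⟨c, hc, hmax⟩ := exists_max_image A (fun x => Rat.padicValuation p x) ⟨a₀, ha₀⟩
    have hone : ∀ x : ℚ, 1 < Rat.padicValuation p x ↔ p ∣ x.den := by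
      intro x
      rw [← not_le, Rat.padicValuation_le_one_iff]
      simp
    have hsq2 : ∀ x : ℚ, p ^ 2 ∣ x.den ↔ 1 < Rat.padicValuation p p * Rat.padicValuation p x := by
      intro x
      rw [sq_dvd_den p hp x, ← hone, map_mul]
    have ha1 : 1 < Rat.padicValuation p a₀ := (hone a₀).mpr ((Dvd.intro p rfl).trans hpp)
    have ha2 : 1 < Rat.padicValuation p p * Rat.padicValuation p a₀ :=
      (hsq2 a₀).mp (by rw [pow_two]; exact hpp)
    refine ext_of_sub (Rat.padicValuation p) A (Rat.padicValuation p c)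
      (lt_of_lt_of_le ha1 (hmax a₀ ha₀)) c hc rfl hmax ?_ ?_
    · intro t ht t' ht' h1 h2 hne
      have h3 : ∀ x ∈ A, Rat.padicValuation p x = Rat.padicValuation p c → p ^ 2 ∣ x.den := by
        intro x _ hx
        rw [hsq2, hx]
        exact lt_of_lt_of_le ha2 (mul_le_mul' le_rfl (hmax a₀ ha₀))
      exact (hone _).mpr (h p hp t ht t' ht' hne (h3 t ht h1) (h3 t' ht' h2))
    · refine ih _ ?_ _ ?_ rfl
      · rw [← hn]
        refine card_lt_card ⟨filter_subset _ _, fun hsub => ?_⟩
        exact absurd (mem_filter.mp (hsub hc)).2 (lt_irrefl _)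
      · intro r hr a ha b hb
        exact h r hr a (mem_filter.mp ha).1 b (mem_filter.mp hb).1

end Pool.Agent.Helper37.RV
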